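import Pool.Agent.Lib.helper16.Fitting

set_option maxHeartbeats 400000

namespace Pool.Agent.H.MP_fedac3_al

open Subgroup
open scoped commutatorElement

variable {G : Type} [Group G] [Finite G] {X Q : Subgroup G}

theorem split (hX : IsPGroup 3 X) (hQ : IsPGroup 2 Q) (hn : Q ≤ normalizer X) {x : G}
    (hx : x ∈ X) : ∃ c ∈ ⁅X, Q⁆, ∃ b ∈ X, b ∈ centralizer (Q : Set G) ∧ x = c * b := by
  have h1 : ⁅X, Q⁆ ≤ X := le_normalizer_iff_commutator_le_left.1 hn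
  letI : MulAction Q {y // y * x⁻¹ ∈ ⁅X, Q⁆} :=
    { smul := fun q y => ⟨q * y * (q : G)⁻¹, by
        have := mul_mem ((mem_normalizer_iff.1 (normalizer_commutator_ge_right X Q q.2) _).1 y.2)
          (commutator_comm_le _ _ (commutator_mem_commutator q.2 hx))
        simpa [commutatorElement_def, mul_assoc] using this⟩
      one_smul := fun y => Subtype.ext (by show (1 : G) * y * 1⁻¹ = y; simp)
      mul_smul := fun a b y => Subtype.ext (by
        show (a * b : G) * y * (a * b : G)⁻¹ = a * (b * y * (b : G)⁻¹) * (a : G)⁻¹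
        group) }
  obtain ⟨⟨b, hb⟩, h2⟩ := hQ.nonempty_fixed_point_of_prime_not_dvd_card
    {y // y * x⁻¹ ∈ ⁅X, Q⁆} (by
      obtain ⟨m, hm⟩ := (hX.to_le h1).exists_card_eq
      rw [Nat.card_congr ((Equiv.mulRight x⁻¹).subtypeEquiv (p := fun y => y * x⁻¹ ∈ ⁅X, Q⁆)
        (q := (· ∈ ⁅X, Q⁆)) fun _ => Iff.rfl), hm]
      exact fun h => absurd (Nat.prime_two.dvd_of_dvd_pow h) (by norm_num))
  refine ⟨_, inv_mem hb, b, by simpa using mul_mem (h1 hb) hx, fun q hq => ?_, by simp⟩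
  exact mul_inv_eq_iff_eq_mul.1 (congrArg Subtype.val (h2 ⟨q, hq⟩))

omit [Finite G] in
theorem triv (hX : IsPGroup 3 X) {z : G} (hz : z ∈ X) {n : ℕ} (h : z ^ 2 ^ n = 1) : z = 1 := by
  have := (hX.orderOf_coprime (n := 2 ^ n) (Nat.Coprime.pow_right n (by norm_num))
    ⟨z, hz⟩).eq_one_of_dvd (by rw [orderOf_mk]; exact orderOf_dvd_of_pow_eq_one h)
  rwa [orderOf_mk, orderOf_eq_one_iff] at this

theorem fix (hX : IsPGroup 3 X) (hQ : IsPGroup 2 Q) (hn : Q ≤ normalizer X)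
    (hc : ∀ a ∈ X, ∀ b ∈ X, Commute a b) {z : G} (h1 : z ∈ ⁅X, Q⁆)
    (h2 : z ∈ centralizer (Q : Set G)) : z = 1 := by
  letI : CommGroup X := { (inferInstance : Group X) with
    mul_comm := fun a b => Subtype.ext (hc a a.2 b b.2) }
  have := Fintype.ofFinite Q
  let φ : Q →* MulAut X := X.normalizerMonoidHom.comp (inclusion hn)
  let ν : X →* X := MonoidHom.mk' (fun a => ∏ q : Q, φ q a) fun a b => by
    simp [Finset.prod_mul_distrib]
  have h3 : ⁅X, Q⁆ ≤ ν.ker.map X.subtype := commutator_le.2 fun a ha q hq => by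
    refine ⟨⟨a, ha⟩ * φ ⟨q, hq⟩ ⟨a, ha⟩⁻¹, ?_, by
      show a * (q * a⁻¹ * q⁻¹) = _
      simp [commutatorElement_def, mul_assoc]⟩
    have : ν (φ ⟨q, hq⟩ ⟨a, ha⟩⁻¹) = ν ⟨a, ha⟩⁻¹ :=
      Fintype.prod_equiv (Equiv.mulRight ⟨q, hq⟩) _ _ fun r => by simp
    show ν _ = 1
    rw [map_mul, this, ← map_mul, mul_inv_cancel, map_one]
  obtain ⟨w, hw, rfl⟩ := h3 h1
  obtain ⟨n, hn⟩ := hQ.exists_card_eq
  refine triv hX w.2 (n := n) ?_
  have : ν w = w ^ 2 ^ n := by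
    rw [← hn, Nat.card_eq_fintype_card, ← Finset.card_univ, ← Finset.prod_const]
    exact Finset.prod_congr rfl fun q _ => Subtype.ext (mul_inv_eq_iff_eq_mul.2 (h2 q q.2))
  exact congrArg Subtype.val (this.symm.trans hw)

theorem fix' [X.Normal] (hX : IsPGroup 3 X) (hQ : IsPGroup 2 Q) (h : X ≤ ⁅X, Q⁆) {z : G}
    (h1 : z ∈ X) (h2 : z ∈ centralizer (Q : Set G)) : z ∈ ⁅X, X⁆ := by
  have := Normal.map ‹X.Normal› _ (QuotientGroup.mk'_surjective ⁅X, X⁆)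
  refine (QuotientGroup.eq_one_iff z).1 (fix (hX.map (QuotientGroup.mk' _))
    (hQ.map (QuotientGroup.mk' _)) le_normalizer_of_normal ?_ ?_ ?_)
  · rintro _ ⟨a, ha, rfl⟩ _ ⟨b, hb, rfl⟩
    rw [← commutatorElement_eq_one_iff_commute, ← map_commutatorElement]
    exact (QuotientGroup.eq_one_iff _).2 (commutator_mem_commutator ha hb)
  · rw [← map_commutator]
    exact ⟨z, h h1, rfl⟩
  · rintro _ ⟨q, hq, rfl⟩
    exact congrArg (QuotientGroup.mk' ⁅X, X⁆) (h2 q hq)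

theorem idem (hX : IsPGroup 3 X) (hQ : IsPGroup 2 Q) (hn : Q ≤ normalizer X) :
    ⁅X, Q⁆ ≤ ⁅⁅X, Q⁆, Q⁆ := commutator_le.2 fun x hx q hq => by
  obtain ⟨c, hc, b, -, hb, rfl⟩ := split hX hQ hn hx
  rw [commutatorElement_mul_left_eq_conj_mul,
    commutatorElement_eq_one_iff_mul_comm.2 (hb q hq).symm, mul_one, mul_inv_cancel, one_mul]
  exact commutator_mem_commutator hc hq

end Pool.Agent.H.MP_fedac3_al
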