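import Pool.Agent.H.MP_fedac3_al.A

set_option maxHeartbeats 400000

namespace Pool.Agent.H.MP_fedac3_al

open Subgroup
open scoped commutatorElement

variable {G : Type} [Group G] {R U W Q : Subgroup G} {k : ℕ} {x y z : G}

/-- commutators with a fixed element -/
def cs (x : G) (R : Subgroup G) : Set G := (fun r => ⁅x, r⁆) '' R

/-- the centre -/
abbrev Ce (R : Subgroup G) : Subgroup G := R ⊓ centralizer R

/-- small elements -/
def Sm (k : ℕ) (R : Subgroup G) : Set G := {x | x ∈ R ∧ (cs x R).ncard ≤ k}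

/-- central products of semi-extraspecial blocks -/
structure Blk (k : ℕ) (R : Subgroup G) : Prop where
  c0 : ⁅R, R⁆ ≤ centralizer R
  c3 : ∀ x ∈ R, x ∈ centralizer (R : Set G) ∨ k ≤ (cs x R).ncard
  c4 : R ≤ closure (Sm k R)
  c5 : ∀ x ∈ Sm k R, ∀ y ∈ Sm k R, cs x R = cs y R ∨ Commute x y

theorem mulL (h : Commute x ⁅y, z⁆) : ⁅x * y, z⁆ = ⁅y, z⁆ * ⁅x, z⁆ := by
  rw [commutatorElement_mul_left_eq_conj_mul, h.eq, mul_inv_cancel_right]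

theorem mulR (h : Commute y ⁅x, z⁆) : ⁅x, y * z⁆ = ⁅x, y⁆ * ⁅x, z⁆ := by
  rw [commutatorElement_mul_right_eq_mul_conj, mul_assoc _ y, h.eq, ← mul_assoc,
    mul_inv_cancel_right]

theorem dropL (h : Commute y z) : ⁅x * y, z⁆ = ⁅x, z⁆ := by
  rw [commutatorElement_mul_left_eq_conj_mul, h.commutator_eq]; simp

theorem dropR (h : Commute x z) : ⁅x, y * z⁆ = ⁅x, y⁆ := by
  rw [commutatorElement_mul_right_eq_mul_conj, h.commutator_eq]; simp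

theorem Blk.cc (h : Blk k R) (hx : x ∈ R) (hy : y ∈ R) (hz : z ∈ R) : Commute x ⁅y, z⁆ :=
  h.c0 (commutator_mem_commutator hy hz) x hx

theorem Blk.ce (h : Blk k R) (hx : x ∈ R) (hy : y ∈ R) : ⁅x, y⁆ ∈ Ce R :=
  ⟨commutator_le_self R (commutator_mem_commutator hx hy), h.c0 (commutator_mem_commutator hx hy)⟩

theorem Blk.l (h : Blk k R) (hx : x ∈ R) (hy : y ∈ R) (hz : z ∈ R) :
    ⁅x * y, z⁆ = ⁅y, z⁆ * ⁅x, z⁆ := mulL (h.cc hx hy hz)

theorem Blk.r (h : Blk k R) (hx : x ∈ R) (hy : y ∈ R) (hz : z ∈ R) :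
    ⁅x, y * z⁆ = ⁅x, y⁆ * ⁅x, z⁆ := mulR (h.cc hy hx hz)

theorem Blk.inv (h : Blk k R) (hx : x ∈ R) (hy : y ∈ R) : ⁅x, y⁻¹⁆ = ⁅y, x⁆ := by
  rw [commutatorElement_inv_right, mul_assoc, ← (h.cc hy hy hx).eq, inv_mul_cancel_left]

theorem Blk.f2 (h : Blk k R) (hn : Q ≤ normalizer R) (hx : x ∈ R)
    (hQ : x ∈ centralizer (Q : Set G)) (hy : y ∈ ⁅R, Q⁆) : ⁅x, y⁆ ∈ ⁅Ce R, Q⁆ := by
  let T : Subgroup G :=
    { carrier := {y | y ∈ R ∧ ⁅x, y⁆ ∈ ⁅Ce R, Q⁆}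
      one_mem' := ⟨one_mem _, by simp⟩
      mul_mem' := fun a b => ⟨mul_mem a.1 b.1, by rw [h.r hx a.1 b.1]; exact mul_mem a.2 b.2⟩
      inv_mem' := fun a => ⟨inv_mem a.1, by
        rw [h.inv hx a.1, ← commutatorElement_inv]; exact inv_mem a.2⟩ }
  refine (commutator_le (H₃ := T).2 (fun r hr q hq => ?_) hy).2
  have h1 := (mem_normalizer_iff.1 (hn hq) _).1 (inv_mem hr)
  rw [show ⁅r, q⁆ = r * (q * r⁻¹ * q⁻¹) by simp [commutatorElement_def, mul_assoc]]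
  refine ⟨mul_mem hr h1, ?_⟩
  rw [h.r hx hr h1, show ⁅x, q * r⁻¹ * q⁻¹⁆ = q * ⁅x, r⁆⁻¹ * q⁻¹ by
    rw [commutatorElement_inv, ← h.inv hx hr, conjugate_commutatorElement, hQ q hq,
      mul_inv_cancel_right]]
  simpa [commutatorElement_def, mul_assoc] using commutator_mem_commutator (h.ce hx hr) hq

variable [Finite G]

theorem Blk.comp (h : Blk k R) (hx : x ∈ Sm k R) {r : G} (hr : r ∈ R) :
    ∃ u ∈ R, cs u R ⊆ cs x R ∧ ∃ w, (∀ y ∈ R, cs y R ⊆ cs x R → Commute w y) ∧ r = u * w := by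
  have h1 : cs 1 R ⊆ cs x R := by
    rintro _ ⟨r, -, rfl⟩
    exact ⟨1, one_mem _, by simp⟩
  have := h.c4 hr
  clear hr
  induction this using closure_induction with
  | mem s hs =>
    by_cases e : cs s R ⊆ cs x R
    · exact ⟨s, hs.1, e, 1, by simp, by simp⟩
    · exact ⟨1, one_mem _, h1, s, fun y hy e' => (h.c5 s hs y ⟨hy, (Set.ncard_le_ncard e').trans
        hx.2⟩).resolve_left fun e'' => e (e'' ▸ e'), by simp⟩
  | one => exact ⟨1, one_mem _, h1, 1, by simp, by simp⟩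
  | mul a b _ _ ha hb =>
    obtain ⟨u, u1, u2, w, w1, rfl⟩ := ha
    obtain ⟨v, v1, v2, t, t1, rfl⟩ := hb
    refine ⟨u * v, mul_mem u1 v1, ?_, w * t, fun y a b => (w1 y a b).mul_left (t1 y a b), by
      rw [mul_assoc, ← mul_assoc w, (w1 v v1 v2).eq]; group⟩
    rintro _ ⟨r, hr, rfl⟩
    obtain ⟨a, a1, a2⟩ := u2 ⟨r, hr, rfl⟩
    obtain ⟨b, b1, b2⟩ := v2 ⟨r, hr, rfl⟩
    exact ⟨b * a, mul_mem b1 a1, by simp only at a2 b2 ⊢; rw [h.r hx.1 b1 a1, h.l u1 v1 hr, a2, b2]⟩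
  | inv a _ ha =>
    obtain ⟨u, u1, u2, w, w1, rfl⟩ := ha
    refine ⟨u⁻¹, inv_mem u1, ?_, w⁻¹, fun y a b => (w1 y a b).inv_left, by
      rw [← (w1 u u1 u2).eq, mul_inv_rev]⟩
    rintro _ ⟨r, hr, rfl⟩
    obtain ⟨a, a1, a2⟩ := u2 ⟨r⁻¹, inv_mem hr, rfl⟩
    refine ⟨a, a1, a2.trans ?_⟩
    simp only
    rw [h.inv u1 hr, ← commutatorElement_inv r, h.inv hr u1, commutatorElement_inv]

theorem Blk.alt (h : Blk k R) (hx : x ∈ Sm k R) (hy : y ∈ R) : Commute y x ∨ cs x R ⊆ cs y R := by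
  obtain ⟨u, u1, u2, w, w1, rfl⟩ := h.comp hx hy
  rcases h.c3 u u1 with e | e
  · exact .inl (Commute.mul_left (e x hx.1).symm (w1 x hx.1 subset_rfl))
  · rw [← Set.eq_of_subset_of_ncard_le u2 (hx.2.trans e)]
    right
    rintro _ ⟨r, hr, rfl⟩
    obtain ⟨v, v1, v2, t, t1, rfl⟩ := h.comp hx hr
    exact ⟨v, v1, (dropL (w1 v v1 v2)).trans (dropR (t1 u u1 u2).symm).symm⟩

section
variable (hU : U ≤ R) (hR : ∀ r ∈ R, ∃ u ∈ U, ∃ w ∈ W, r = u * w)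
  (hc : ∀ u ∈ U, ∀ w ∈ W, Commute u w)
include hU hR hc

omit [Finite G] in
theorem cs_eq (hx : x ∈ U) : cs x R = cs x U := by
  refine Set.Subset.antisymm ?_ (Set.image_mono hU)
  rintro _ ⟨r, hr, rfl⟩
  obtain ⟨u, hu, w, hw, rfl⟩ := hR r hr
  exact ⟨u, hu, (dropR (hc x hx w hw)).symm⟩

omit [Finite G] hR in
theorem cs_le (hy : y ∈ W) : cs x U ⊆ cs (x * y) R := by
  rintro _ ⟨r, hr, rfl⟩
  exact ⟨r, hU hr, dropL (hc r hr y hy).symm⟩

omit [Finite G] hU in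
theorem ce_eq (hx : x ∈ U) (h : x ∈ centralizer (U : Set G)) : x ∈ centralizer (R : Set G) :=
  fun r hr => by
    obtain ⟨u, hu, w, hw, rfl⟩ := hR r hr
    exact Commute.mul_left (h u hu) (hc x hx w hw).symm

theorem Blk.summand (hk : 1 ≤ k) (h : Blk k R) : Blk k U := by
  have e := fun x => cs_eq (x := x) hU hR hc
  refine ⟨(commutator_mono hU hU).trans (h.c0.trans (centralizer_le hU)), fun x hx =>
    (h.c3 x (hU hx)).imp (fun a => centralizer_le hU a) (e x hx ▸ ·), fun x hx => ?_,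
    fun x hx y hy => ?_⟩
  · have h1 : closure (Sm k U) ≤ U := (closure_le _).2 fun _ a => a.1
    have : ∀ r ∈ closure (Sm k R), ∃ u ∈ closure (Sm k U), ∃ w ∈ W, r = u * w := fun r hr => by
      induction hr using closure_induction with
      | mem s hs =>
        obtain ⟨u, hu, w, hw, rfl⟩ := hR s hs.1
        exact ⟨u, subset_closure ⟨hu, (Set.ncard_le_ncard (cs_le hU hc hw)).trans hs.2⟩, w, hw, rfl⟩
      | one => exact ⟨1, one_mem _, 1, one_mem _, by simp⟩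
      | mul a b _ _ ha hb =>
        obtain ⟨u, u1, w, w1, rfl⟩ := ha
        obtain ⟨v, v1, t, t1, rfl⟩ := hb
        exact ⟨u * v, mul_mem u1 v1, w * t, mul_mem w1 t1, by
          rw [mul_assoc, ← mul_assoc w, ← (hc v (h1 v1) w w1).eq]; group⟩
      | inv a _ ha =>
        obtain ⟨u, u1, w, w1, rfl⟩ := ha
        exact ⟨u⁻¹, inv_mem u1, w⁻¹, inv_mem w1, by rw [(hc u (h1 u1) w w1).eq, mul_inv_rev]⟩
    obtain ⟨u, hu, w, hw, rfl⟩ := this x (h.c4 (hU hx))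
    refine mul_mem hu (subset_closure ⟨(mul_mem_cancel_left (h1 hu)).1 hx, ?_⟩)
    refine le_trans (Set.ncard_le_ncard (t := {1}) ?_) (by simpa)
    rintro _ ⟨r, hr, rfl⟩
    exact (hc r hr w hw).symm.commutator_eq
  · rw [← e x hx.1, ← e y hy.1]
    exact h.c5 x ⟨hU hx.1, e x hx.1 ▸ hx.2⟩ y ⟨hU hy.1, e y hy.1 ▸ hy.2⟩

theorem Blk.sum (hW : W ≤ R) (h : Blk k U) (h' : Blk k W) : Blk k R := by
  have hR' : ∀ r ∈ R, ∃ w ∈ W, ∃ u ∈ U, r = w * u := fun r hr => by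
    obtain ⟨u, hu, w, hw, rfl⟩ := hR r hr
    exact ⟨w, hw, u, hu, hc u hu w hw⟩
  have hc' : ∀ w ∈ W, ∀ u ∈ U, Commute w u := fun w hw u hu => (hc u hu w hw).symm
  have e : ∀ u ∈ U, ∀ w ∈ W, ∀ v ∈ U, ∀ t ∈ W, ⁅u * w, v * t⁆ = ⁅w, t⁆ * ⁅u, v⁆ :=
    fun u hu w hw v hv t ht => by
      have : ⁅w, v * t⁆ = ⁅w, t⁆ := by rw [(hc v hv t ht).eq, dropR (hc' w hw v hv)]
      rw [mulL (this ▸ hc u hu _ (h'.ce hw ht).1), this, dropR (hc u hu t ht)]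
  have a : ∀ {U W : Subgroup G}, U ≤ R → Blk k U → (∀ u ∈ U, ∀ w ∈ W, Commute u w) →
      ∀ u ∈ U, ∀ w ∈ W, u * w ∈ Sm k R → ∀ v ∈ U, ∀ t ∈ W, v * t ∈ Sm k R →
      cs (u * w) R ≠ cs (v * t) R → Commute u v := fun hU h hc u hu w hw s v hv t ht s' n => by
    by_contra c
    have b1 := cs_le (x := u) hU hc hw
    have b2 := cs_le (x := v) hU hc ht
    rw [← Set.eq_of_subset_of_ncard_le b1 (s.2.trans ((h.c3 u hu).resolve_left
      fun e => c (e v hv).symm)), ← Set.eq_of_subset_of_ncard_le b2 (s'.2.trans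
      ((h.c3 v hv).resolve_left fun e => c (e u hu)))] at n
    exact (h.c5 u ⟨hu, (Set.ncard_le_ncard b1).trans s.2⟩ v
      ⟨hv, (Set.ncard_le_ncard b2).trans s'.2⟩).elim n c
  refine ⟨commutator_le.2 fun x hx y hy => ?_, fun x hx => ?_, fun x hx => ?_,
    fun x hx y hy => or_iff_not_imp_left.2 fun n => ?_⟩
  · obtain ⟨u, hu, w, hw, rfl⟩ := hR x hx
    obtain ⟨v, hv, t, ht, rfl⟩ := hR y hy
    rw [e u hu w hw v hv t ht]
    exact mul_mem (ce_eq hR' hc' (h'.ce hw ht).1 (h'.ce hw ht).2)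
      (ce_eq hR hc (h.ce hu hv).1 (h.ce hu hv).2)
  · obtain ⟨u, hu, w, hw, rfl⟩ := hR x hx
    rcases h.c3 u hu with a | a
    · rcases h'.c3 w hw with b | b
      · exact .inl (mul_mem (ce_eq hR hc hu a) (ce_eq hR' hc' hw b))
      · exact .inr (b.trans (Set.ncard_le_ncard ((hc u hu w hw).eq ▸ cs_le hW hc' hu)))
    · exact .inr (a.trans (Set.ncard_le_ncard (cs_le hU hc hw)))
  · obtain ⟨u, hu, w, hw, rfl⟩ := hR x hx
    have a1 : Sm k U ⊆ Sm k R := fun s hs => ⟨hU hs.1, cs_eq hU hR hc hs.1 ▸ hs.2⟩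
    have a2 : Sm k W ⊆ Sm k R := fun s hs => ⟨hW hs.1, cs_eq hW hR' hc' hs.1 ▸ hs.2⟩
    exact mul_mem (Subgroup.closure_mono a1 (h.c4 hu)) (Subgroup.closure_mono a2 (h'.c4 hw))
  · obtain ⟨u, hu, w, hw, rfl⟩ := hR x hx.1
    obtain ⟨v, hv, t, ht, rfl⟩ := hR y hy.1
    rw [← commutatorElement_eq_one_iff_commute, e u hu w hw v hv t ht,
      (a hU h hc u hu w hw hx v hv t ht hy n).commutator_eq, mul_one]
    rw [(hc u hu w hw).eq] at hx n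
    rw [(hc v hv t ht).eq] at hy n
    exact (a hW h' hc' w hw u hu hx t ht v hv hy n).commutator_eq

end

end Pool.Agent.H.MP_fedac3_al
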