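import Pool.Agent.H.MP_fedac3_al.B

set_option maxHeartbeats 400000

namespace Pool.Agent.H.MP_fedac3_al

open Subgroup
open scoped commutatorElement

variable {G : Type} [Group G] {R Q R1 R2 Q1 Q2 : Subgroup G} {k : ℕ} {x y z : G}

/-- a block group with a 2-group acting -/
structure Pair (k : ℕ) (R Q : Subgroup G) : Prop where
  nor : R.Normal
  p3 : IsPGroup 3 R
  p2 : IsPGroup 2 Q
  blk : Blk k R
  c2 : Ce R ≤ centralizer Q
  gen : R ≤ ⁅R, Q⁆

theorem Pair.fixc (h : Pair k R Q) (hx : x ∈ R) (hQ : x ∈ centralizer (Q : Set G)) : x ∈ Ce R := by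
  have := h.nor
  refine ⟨hx, fun y hy => (commutatorElement_eq_one_iff_mul_comm.1 ?_).symm⟩
  have := h.blk.f2 le_normalizer_of_normal hx hQ (h.gen hy)
  rwa [commutator_eq_bot_iff_le_centralizer.2 h.c2] at this

theorem cs_conj [hR : R.Normal] (g x : G) : cs (g * x * g⁻¹) R = (fun y => g * y * g⁻¹) '' cs x R := by
  ext y
  constructor
  · rintro ⟨r, hr, rfl⟩
    exact ⟨_, ⟨_, hR.conj_mem' r hr g, rfl⟩, by simp [commutatorElement_def, mul_assoc]⟩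
  · rintro ⟨_, ⟨r, hr, rfl⟩, rfl⟩
    exact ⟨_, hR.conj_mem r hr g, (conjugate_commutatorElement _ _ _).symm⟩

theorem cl [R.Normal] (hx : x ∈ R) (y : G) : ⁅x, y⁆ ∈ R :=
  commutator_le_left R ⊤ (commutator_mem_commutator hx (mem_top y))

theorem cr [R.Normal] (x : G) (hy : y ∈ R) : ⁅x, y⁆ ∈ R :=
  commutator_le_right ⊤ R (commutator_mem_commutator (mem_top x) hy)

variable [Finite G]

theorem Pair.fz (h : Pair k R Q1) (hQ : IsPGroup 2 Q) (h1 : z ∈ ⁅Ce R, Q⁆)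
    (h2 : z ∈ centralizer (Q : Set G)) : z = 1 := by
  have := h.nor
  exact fix (X := Ce R) (h.p3.to_le inf_le_left) hQ le_normalizer_of_normal
    (fun a ha b hb => mem_centralizer_iff.1 hb.2 a ha.1) h1 h2

section
variable (h1 : Pair k R1 Q1) (h2 : Pair k R2 Q2) (a12 : ⁅R1, Q2⁆ ≤ R2) (a21 : ⁅R2, Q1⁆ ≤ R1)
include h1 h2

theorem spl (hx : x ∈ R1) (hy : x ∈ R2) : ∃ e ∈ R1, e ∈ R2 ∧ ∃ f ∈ R1, f ∈ Ce R2 ∧ x = e * f ∧
    ∀ b ∈ R1, b ∈ centralizer (Q2 : Set G) → ⁅b, e⁆ ∈ ⁅Ce R1, Q2⁆ := by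
  have := h1.nor
  have := h2.nor
  obtain ⟨e, he, f, f1, f2, rfl⟩ := split (h1.p3.to_inf_left (K := R2)) h2.p2
    le_normalizer_of_normal ⟨hx, hy⟩
  have := commutator_le_left _ _ he
  exact ⟨e, this.1, this.2, f, f1.1, h2.fixc f1.2 f2, rfl, fun b b1 b2 =>
    h1.blk.f2 le_normalizer_of_normal b1 b2 (commutator_mono inf_le_left le_rfl he)⟩

include a12 in
theorem dat (hM : (R2 ⊔ Q2).Normal) (hx : x ∈ Sm k R1)
    (hn : ¬ cs x R1 ⊆ (centralizer (R2 ⊔ Q2 : Subgroup G) : Subgroup G)) :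
    ∃ c ∈ R1, c ∈ R2 ∧ ∃ b ∈ R1, b ∈ centralizer (Q2 : Set G) ∧ ∃ z ∈ Ce R1, x = c * z * b ∧
      (∀ b ∈ R1, b ∈ centralizer (Q2 : Set G) → ⁅b, c⁆ ∈ ⁅Ce R1, Q2⁆) ∧
      ∀ a ∈ R2, a ∈ centralizer (Q1 : Set G) → Commute c a := by
  have := h1.nor
  have := h2.nor
  set S := {u | u ∈ Sm k R1 ∧ ¬ cs u R1 ⊆ (centralizer (R2 ⊔ Q2 : Subgroup G) : Subgroup G)}
  have hX : closure S ≤ R1 := (closure_le _).2 fun u hu => hu.1.1
  have : (closure S).Normal := ⟨fun n hn g => by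
    have : closure S ≤ (closure S).comap (MulAut.conj g).toMonoidHom := (closure_le _).2
      fun u hu => subset_closure ⟨⟨Normal.conj_mem ‹_› _ hu.1.1 g, by
        show (cs (g * u * g⁻¹) R1).ncard ≤ k
        rw [cs_conj]
        exact (Set.ncard_image_le (Set.toFinite _)).trans hu.1.2⟩, fun e => hu.2 fun w hw => by
          simpa [mul_assoc] using Normal.conj_mem' inferInstance _
            (e (show g * w * g⁻¹ ∈ cs (g * u * g⁻¹) R1 from cs_conj (R := R1) g u ▸ ⟨w, hw, rfl⟩)) g⟩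
    exact this hn⟩
  obtain ⟨c, hc, b, b1, b2, rfl⟩ := split (h1.p3.to_le hX) h2.p2 le_normalizer_of_normal
    (subset_closure ⟨hx, hn⟩)
  have c1 := commutator_mono hX le_rfl hc
  obtain ⟨e, he, z, z1, z2, rfl⟩ := split ((h1.p3.to_le hX).to_inf_left (K := R2)) h1.p2
    le_normalizer_of_normal ⟨commutator_le_left _ _ hc, a12 c1⟩
  have e1 := commutator_le_left _ _ he
  have z3 := h1.fixc (hX z1.1) z2
  refine ⟨e, hX e1.1, e1.2, b, hX b1, b2, z, z3, rfl, fun b b1 b2 => ?_, fun a a1 a2 => ?_⟩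
  · rw [← dropR (z3.2 b b1)]
    exact h1.blk.f2 le_normalizer_of_normal b1 b2 c1
  have p1 := h2.blk.f2 le_normalizer_of_normal a1 a2 (commutator_mono inf_le_right le_rfl he)
  have p2 : ⁅a, e⁆ ∈ closure S := cr a e1.1
  have p3 : cs ⁅a, e⁆ R1 ⊆ (centralizer (R2 ⊔ Q2 : Subgroup G) : Subgroup G) := by
    rintro _ ⟨r, -, rfl⟩
    have := cl (commutator_le_left _ _ p1) r
    exact le_centralizer_iff.1 (sup_le (le_centralizer_iff.1 inf_le_right)
      (le_centralizer_iff.1 h2.c2)) this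
  refine (commutatorElement_eq_one_iff_commute.1 (h2.fz h1.p2 p1 (h1.c2 ⟨hX p2, fun r hr => ?_⟩))).symm
  refine (closure_le (centralizer {⁅a, e⁆})).2 (fun u hu => mem_centralizer_singleton_iff.2 ?_)
    (h1.blk.c4 hr) _ rfl |>.symm
  by_cases s : u ∈ S
  · exact ((h1.blk.alt hu (hX p2)).resolve_right fun e => s.2 (e.trans p3)).symm
  · refine ((closure_le (centralizer {u})).2 (fun v hv => mem_centralizer_singleton_iff.2 ?_) p2
      _ rfl)
    exact (h1.blk.c5 v hv.1 u hu).resolve_left fun e => s ⟨hu, e ▸ hv.2⟩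

end

end Pool.Agent.H.MP_fedac3_al
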