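import Pool.Agent.H.MP_fedac3_al.C

set_option maxHeartbeats 800000

namespace Pool.Agent.H.MP_fedac3_al

open Subgroup
open scoped commutatorElement

variable {G : Type} [Group G] [Finite G] {R1 R2 Q1 Q2 : Subgroup G} {k : ℕ}
  (h1 : Pair k R1 Q1) (h2 : Pair k R2 Q2) (a12 : ⁅R1, Q2⁆ ≤ R2) (a21 : ⁅R2, Q1⁆ ≤ R1)
include h1 h2

theorem uniq {d d' f f' : G} (hd : d ∈ ⁅Ce R1, Q2⁆) (hd' : d' ∈ ⁅Ce R1, Q2⁆)
    (hf : f ∈ centralizer (Q2 : Set G)) (hf' : f' ∈ centralizer (Q2 : Set G))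
    (e : d * f = d' * f') : d = d' ∧ f = f' := by
  have : d'⁻¹ * d = 1 := h1.fz h2.p2 (mul_mem (inv_mem hd') hd) (by
    rw [show d'⁻¹ * d = f' * f⁻¹ by rw [inv_mul_eq_iff_eq_mul, ← mul_assoc, ← e]; simp]
    exact mul_mem hf' (inv_mem hf))
  obtain rfl := inv_mul_eq_one.1 this
  exact ⟨rfl, mul_left_cancel e⟩

include a21 in
theorem core {c b z c' b' z' : G} (c1 : c ∈ R1) (c2 : c ∈ R2) (b1 : b ∈ R1)
    (b2 : b ∈ centralizer (Q2 : Set G)) (hz : z ∈ Ce R1)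
    (c3 : ∀ b ∈ R1, b ∈ centralizer (Q2 : Set G) → ⁅b, c⁆ ∈ ⁅Ce R1, Q2⁆)
    (c4 : ∀ a ∈ R2, a ∈ centralizer (Q1 : Set G) → Commute c a)
    (c1' : c' ∈ R1) (c2' : c' ∈ R2) (b1' : b' ∈ R1)
    (b2' : b' ∈ centralizer (Q2 : Set G)) (hz' : z' ∈ Ce R1)
    (c3' : ∀ b ∈ R1, b ∈ centralizer (Q2 : Set G) → ⁅b, c'⁆ ∈ ⁅Ce R1, Q2⁆)
    (c4' : ∀ a ∈ R2, a ∈ centralizer (Q1 : Set G) → Commute c' a)
    (hx : c * z * b ∈ Sm k R1) (hxy : cs (c * z * b) R1 = cs (c' * z' * b') R1)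
    (hn : ⁅c * z * b, c' * z' * b'⁆ ∉ centralizer (Q2 : Set G)) (hδ : ⁅b, c'⁆ ≠ 1) : False := by
  have := h1.nor
  have := h2.nor
  have B := h1.blk
  have H : ∀ {c z b e : G}, c ∈ R1 → z ∈ Ce R1 → b ∈ R1 → e ∈ R1 →
      ⁅c * z * b, e⁆ = ⁅b, e⁆ * ⁅c, e⁆ := fun hc hz hb he => by
    rw [B.l (mul_mem hc hz.1) hb he, dropL (hz.2 _ he).symm]
  have F : ∀ {c e : G}, c ∈ R2 → e ∈ R2 → ⁅c, e⁆ ∈ centralizer (Q2 : Set G) :=
    fun hc he => h2.c2 (h2.blk.ce hc he)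
  have F' : ∀ {c e : G}, c ∈ centralizer (Q2 : Set G) → e ∈ centralizer (Q2 : Set G) →
      ⁅c, e⁆ ∈ centralizer (Q2 : Set G) := fun hc he =>
    commutator_le_self _ (commutator_mem_commutator hc he)
  have cm : ∀ {a b c d : G}, a ∈ R1 → b ∈ R1 → c ∈ R1 → d ∈ R1 → ⁅a, b⁆ * ⁅c, d⁆ = ⁅c, d⁆ * ⁅a, b⁆ :=
    fun ha hb hc hd => B.cc (B.ce ha hb).1 hc hd
  have hy : c' * z' * b' ∈ R1 := mul_mem (mul_mem c1' hz'.1) b1'
  have d1 := c3' b b1 b2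
  have d2 : ⁅b, c'⁆ ∉ centralizer (R2 : Set G) := fun e =>
    hδ (h1.fz h2.p2 d1 (h2.c2 ⟨cr _ c2', e⟩))
  have d3 : k ≤ (cs c' R2).ncard := (h2.blk.c3 c' c2').resolve_left fun e =>
    d2 (cr (R := Ce R2) _ ⟨c2', e⟩).2
  have hπ : ∀ w, ∃ f, w ∈ Ce R1 → f ∈ centralizer (Q2 : Set G) ∧ ∃ d ∈ ⁅Ce R1, Q2⁆, w = d * f :=
    fun w => by
      by_cases hw : w ∈ Ce R1
      · obtain ⟨d, hd, f, -, hf, e⟩ := split (X := Ce R1) (h1.p3.to_le inf_le_left) h2.p2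
          le_normalizer_of_normal hw
        exact ⟨f, fun _ => ⟨hf, d, hd, e⟩⟩
      · exact ⟨1, fun h => (hw h).elim⟩
  choose π hπ using hπ
  have pe : ∀ {d f : G}, d * f ∈ Ce R1 → d ∈ ⁅Ce R1, Q2⁆ → f ∈ centralizer (Q2 : Set G) →
      π (d * f) = f := fun h hd hf => by
    obtain ⟨a, d, b, e⟩ := hπ _ h
    exact (uniq h1 h2 hd b hf a e).2.symm
  have px : ∀ {c z b e : G}, c ∈ R1 → c ∈ R2 → z ∈ Ce R1 → b ∈ R1 → e ∈ R1 → e ∈ R2 →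
      ⁅b, e⁆ ∈ ⁅Ce R1, Q2⁆ → π ⁅c * z * b, e⁆ = ⁅c, e⁆ := fun hc hc' hz hb he he' h => by
    have := B.ce (mul_mem (mul_mem hc hz.1) hb) he
    rw [H hc hz hb he] at this ⊢
    exact pe this h (F hc' he')
  have s1 : cs c' R2 ⊆ π '' cs (c * z * b) R1 := by
    rintro _ ⟨r, hr, rfl⟩
    obtain ⟨e, he, a, a1, a2, rfl⟩ := split h2.p3 h1.p2 le_normalizer_of_normal hr
    obtain ⟨e, e1, e2, f, -, f2, rfl, e3⟩ := spl h1 h2 (a21 he) (commutator_le_left _ _ he)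
    refine ⟨⁅c' * z' * b', e⁆, hxy.ge ⟨e, e1, rfl⟩, ?_⟩
    simp only
    rw [px c1' c2' hz' b1' e1 e2 (e3 _ b1' b2'), dropR (c4' a a1 a2), dropR (f2.2 _ c2')]
  have s2 := Set.ncard_image_le (f := π) (Set.toFinite (cs (c * z * b) R1))
  have inj : Set.InjOn π (cs (c * z * b) R1) := Set.injOn_of_ncard_image_eq
    (s2.antisymm (hx.2.trans (d3.trans (Set.ncard_le_ncard s1))))
  have s3 := Set.eq_of_subset_of_ncard_le s1 (s2.trans (hx.2.trans d3))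
  have key : ∀ {e e' : G}, e ∈ R1 → e ∈ R2 → e' ∈ R1 → e' ∈ R2 → ⁅b, e'⁆ ∈ ⁅Ce R1, Q2⁆ →
      ⁅b', e⁆ ∈ ⁅Ce R1, Q2⁆ → ⁅c, e'⁆ = ⁅e, c'⁆ → ⁅b, e'⁆ = ⁅e, b'⁆ :=
    fun {e e'} e1 e2 e1' e2' p p' q => by
      have : ⁅c * z * b, e'⁆ = ⁅c' * z' * b', e⁻¹⁆ := inj ⟨e', e1', rfl⟩
        (hxy.ge ⟨e⁻¹, inv_mem e1, rfl⟩) (by
        rw [px c1 c2 hz b1 e1' e2' p, px c1' c2' hz' b1' (inv_mem e1) (inv_mem e2) (by
          rw [B.inv b1' e1, ← commutatorElement_inv]; exact inv_mem p'), B.inv c1' e1, q])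
      rw [H c1 hz b1 e1', H c1' hz' b1' (inv_mem e1), B.inv c1' e1, B.inv b1' e1, q] at this
      exact mul_right_cancel this
  have k1 := key c1 c2 c1' c2' d1 (c3 _ b1' b2') rfl
  have k2 : ⁅b, b'⁆ ∈ Ce R2 := by
    have e : ⁅c * z * b, c' * z' * b'⁆ = ⁅b, c'⁆ * ⁅c, b'⁆ * (⁅b, b'⁆ * ⁅c, c'⁆) := by
      rw [H c1 hz b1 hy, B.r b1 (mul_mem c1' hz'.1) b1', B.r c1 (mul_mem c1' hz'.1) b1',
        dropR (hz'.2 _ b1), dropR (hz'.2 _ c1), cm c1 c1' c1 b1', mul_assoc, mul_assoc,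
        ← mul_assoc ⁅b, b'⁆, cm b1 b1' c1 b1', mul_assoc]
    have : π ⁅c * z * b, c' * z' * b'⁆ ∈ cs c' R2 := s3 ▸ ⟨_, ⟨_, hy, rfl⟩, rfl⟩
    have p := B.ce hx.1 hy
    rw [e] at this p
    rw [pe p (mul_mem d1 (k1 ▸ d1)) (mul_mem (F' b2 b2') (F c2 c2'))] at this
    obtain ⟨r, hr, e⟩ := this
    exact (mul_mem_cancel_right (h2.blk.ce c2 c2')).1 (e ▸ h2.blk.ce c2' hr)
  have s4 : cs ⁅b, c'⁆ R2 ⊆ cs (c * z * b) R1 \ {⁅c * z * b, c' * z' * b'⁆} := by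
    rintro _ ⟨r, hr, rfl⟩
    refine ⟨?_, fun e => hn (Set.mem_singleton_iff.1 e ▸ F (cr _ c2') hr)⟩
    obtain ⟨e, he, a, a1, a2, rfl⟩ := split h2.p3 h1.p2 le_normalizer_of_normal hr
    have ca : ∀ x, a * x * a⁻¹ = ⁅a, x⁆ * x := fun x => by simp [commutatorElement_def]
    obtain ⟨u, u1, u2, f, f1, f2, eu, u3⟩ := spl h1 h2 (cr a b1) (cl a1 b)
    obtain ⟨v, v1, v2, g, g1, g2, ev, v3⟩ := spl h1 h2 (cr a b1') (cl a1 b')
    have t1 : ⁅a, ⁅b, c'⁆⁆ = ⁅u, c'⁆ := by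
      apply mul_right_cancel (b := ⁅b, c'⁆)
      rw [← ca, conjugate_commutatorElement, ca, ca, (c4' a a1 a2).symm.commutator_eq, one_mul,
        B.l (cr a b1) b1 c1', cm b1 c1' (cr a b1) c1', eu, dropL (f2.2 _ c2').symm]
    have t2 : ⁅a, ⁅b, c'⁆⁆ = ⁅c, v⁆ := by
      rw [k1]
      apply mul_right_cancel (b := ⁅c, b'⁆)
      rw [← ca, conjugate_commutatorElement, ca, ca, (c4 a a1 a2).symm.commutator_eq, one_mul,
        B.r c1 (cr a b1') b1', ev, dropR (g2.2 _ c2)]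
    have t3 := key u1 u2 v1 v2 (v3 _ b1 b2) (u3 _ b1' b2') (t2.symm.trans t1)
    have t4 : ⁅b, v⁆ * ⁅u, b'⁆ * (⁅b, g⁆ * ⁅f, b'⁆ * ⁅⁅a, b⁆, ⁅a, b'⁆⁆) = 1 * 1 := by
      have := conjugate_commutatorElement b b' a
      rw [k2.2 a a1, mul_inv_cancel_right, ca, ca, B.l (cr a b1) b1 (mul_mem (cr a b1') b1'),
        B.r b1 (cr a b1') b1', B.r (cr a b1) (cr a b1') b1', cm b1 (cr a b1') b1 b1', mul_assoc,
        left_eq_mul, cm (cr a b1) (cr a b1') (cr a b1) b1', ← mul_assoc] at this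
      rw [one_mul, ← this, ← mul_assoc]
      congr 1
      rw [ev, eu, B.r b1 v1 g1, B.l u1 f1 b1', cm f1 b1' u1 b1', mul_assoc, mul_assoc,
        ← mul_assoc ⁅u, b'⁆, cm u1 b1' b1 g1, mul_assoc]
    have t5 := (uniq h1 h2 (mul_mem (v3 _ b1 b2) (t3 ▸ v3 _ b1 b2)) (one_mem _) (mul_mem
      (mul_mem (F' b2 (h2.c2 g2)) (F' (h2.c2 f2) b2')) (F (cl a1 b) (cl a1 b'))) (one_mem _) t4).1
    have t6 : ⁅b, v⁆ = 1 := triv h1.p3 (cl b1 v) (n := 1) (by rw [pow_one, sq, ← t5, ← t3])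
    refine ⟨v⁻¹, inv_mem v1, ?_⟩
    simp only
    rw [B.inv hx.1 v1, ← commutatorElement_inv, H c1 hz b1 v1, t6, one_mul, ← t2,
      commutatorElement_inv, commutatorElement_mul_right_eq_mul_conj,
      (B.cc (a21 he) b1 c1').symm.commutator_eq, one_mul,
      (h2.blk.cc (commutator_le_left _ _ he) (cr _ c2') a1).eq, mul_inv_cancel_right]
  have := Set.ncard_le_ncard s4
  rw [Set.ncard_diff_singleton_of_mem (show ⁅c * z * b, c' * z' * b'⁆ ∈ cs (c * z * b) R1 from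
    ⟨_, hy, rfl⟩)] at this
  have p1 := (h2.blk.c3 _ (cr b c2')).resolve_left d2
  have p2 := hx.2
  have p3 : 0 < (cs (c * z * b) R1).ncard := (Set.ncard_pos (Set.toFinite _)).2 ⟨_, _, hy, rfl⟩
  omega

include a12 a21 in
theorem cent (hM : (R2 ⊔ Q2).Normal) : Ce R1 ≤ centralizer Q2 := by
  have := h1.nor
  have B := h1.blk
  refine fun z hz => (?_ : ⁅R1, R1⁆ ≤ _) (fix' h1.p3 h1.p2 h1.gen hz.1 (h1.c2 hz))
  have key : ∀ x ∈ Sm k R1, ∀ y ∈ Sm k R1, ⁅x, y⁆ ∈ centralizer (Q2 : Set G) := fun x hx y hy => by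
    by_contra hn
    have e := (B.c5 x hx y hy).resolve_right fun e => hn (e.commutator_eq ▸ one_mem _)
    have n : ¬ cs x R1 ⊆ (centralizer (R2 ⊔ Q2 : Subgroup G) : Subgroup G) := fun s =>
      hn fun q hq => s ⟨y, hy.1, rfl⟩ q (mem_sup_right hq)
    obtain ⟨c, c1, c2, b, b1, b2, z, hz, rfl, c3, c4⟩ := dat h1 h2 a12 hM hx n
    obtain ⟨c', c1', c2', b', b1', b2', z', hz', rfl, c3', c4'⟩ := dat h1 h2 a12 hM hy (e ▸ n)
    by_cases d : ⁅b, c'⁆ = 1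
    · refine core h1 h2 a21 c1' c2' b1' b2' hz' c3' c4' c1 c2 b1 b2 hz c3 c4 hy e.symm
        (fun h => hn (by rw [← commutatorElement_inv]; exact inv_mem h)) fun d' => hn ?_
      rw [B.l (mul_mem c1 hz.1) b1 hy.1, dropL (hz.2 _ hy.1).symm, B.r b1 (mul_mem c1' hz'.1) b1',
        B.r c1 (mul_mem c1' hz'.1) b1', dropR (hz'.2 _ b1), dropR (hz'.2 _ c1), d, one_mul,
        ← commutatorElement_inv b' c, d', inv_one, mul_one]
      exact mul_mem (commutator_le_self _ (commutator_mem_commutator b2 b2'))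
        (h2.c2 (h2.blk.ce c2 c2'))
    · exact core h1 h2 a21 c1 c2 b1 b2 hz c3 c4 c1' c2' b1' b2' hz' c3' c4' hx e hn d
  have hS : closure (Sm k R1) ≤ R1 := (closure_le _).2 fun _ h => h.1
  refine commutator_le.2 fun x hx y hy => ?_
  replace hx := B.c4 hx
  replace hy := B.c4 hy
  induction hx, hy using closure_induction₂ with
  | mem x y hx hy => exact key x hx y hy
  | one_left => simp
  | one_right => simp
  | mul_left a b c ha hb hc p q => rw [B.l (hS ha) (hS hb) (hS hc)]; exact mul_mem q p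
  | mul_right a b c ha hb hc p q => rw [B.r (hS hc) (hS ha) (hS hb)]; exact mul_mem p q
  | inv_left a b ha hb p =>
    rw [← commutatorElement_inv, B.inv (hS hb) (hS ha)]; exact inv_mem p
  | inv_right a b ha hb p =>
    rw [B.inv (hS ha) (hS hb), ← commutatorElement_inv]; exact inv_mem p

end Pool.Agent.H.MP_fedac3_al
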