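import Pool.Agent.H.MP_fedac3_al.D

set_option maxHeartbeats 400000

namespace Pool.Agent.H.MP_fedac3_al

open Subgroup
open scoped commutatorElement

variable {G K : Type} [Group G] [Group K] {R N P Q : Subgroup G} {k : ℕ} {x : G}

/-- a good factorisation -/
structure Good (k : ℕ) (N P Q : Subgroup G) : Prop where
  sup : P ⊔ Q = N
  nor : ⁅P, Q⁆ ≤ P
  p3 : IsPGroup 3 P
  p2 : IsPGroup 2 Q
  blk : Blk k ⁅P, Q⁆
  c2 : Ce ⁅P, Q⁆ ≤ centralizer Q

section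
variable {φ : G →* K} (hφ : Function.Injective φ)
include hφ

theorem cs_map : (cs (φ x) (R.map φ)).ncard = (cs x R).ncard ∧ cs (φ x) (R.map φ) = φ '' cs x R := by
  have : cs (φ x) (R.map φ) = φ '' cs x R := by
    simp only [cs, coe_map, Set.image_image, map_commutatorElement]
  exact ⟨by rw [this, Set.ncard_image_of_injective _ hφ], this⟩

theorem cen_map : φ x ∈ centralizer (R.map φ : Set K) ↔ x ∈ centralizer (R : Set G) := by
  simp only [mem_centralizer_iff, coe_map, Set.forall_mem_image, ← map_mul, hφ.eq_iff]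

theorem le_map {U : Subgroup G} : U.map φ ≤ centralizer (R.map φ) ↔ U ≤ centralizer R := by
  rw [map_le_iff_le_comap]
  exact forall₂_congr fun x _ => cen_map hφ

theorem ce_map : Ce (R.map φ) = (Ce R).map φ := by
  ext y
  constructor
  · rintro ⟨⟨x, hx, rfl⟩, h⟩
    exact ⟨x, ⟨hx, (cen_map hφ).1 h⟩, rfl⟩
  · rintro ⟨x, hx, rfl⟩
    exact ⟨⟨x, hx.1, rfl⟩, (cen_map hφ).2 hx.2⟩

theorem sm_map : Sm k (R.map φ) = φ '' Sm k R := by
  ext y
  constructor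
  · rintro ⟨⟨x, hx, rfl⟩, h⟩
    exact ⟨x, ⟨hx, (cs_map hφ).1 ▸ h⟩, rfl⟩
  · rintro ⟨x, hx, rfl⟩
    exact ⟨⟨x, hx.1, rfl⟩, (cs_map hφ).1 ▸ hx.2⟩

theorem blk_map : Blk k (R.map φ) ↔ Blk k R := by
  have a0 : ⁅R.map φ, R.map φ⁆ ≤ centralizer (R.map φ) ↔ ⁅R, R⁆ ≤ centralizer R := by
    rw [← map_commutator, le_map hφ]
  have a3 : (∀ x ∈ R.map φ, x ∈ centralizer (R.map φ : Set K) ∨ k ≤ (cs x (R.map φ)).ncard) ↔
      ∀ x ∈ R, x ∈ centralizer (R : Set G) ∨ k ≤ (cs x R).ncard := by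
    simp only [mem_map, forall_exists_index, and_imp, forall_apply_eq_imp_iff₂, cen_map hφ,
      (cs_map hφ).1]
  have a4 : R.map φ ≤ closure (Sm k (R.map φ)) ↔ R ≤ closure (Sm k R) := by
    rw [sm_map hφ, ← MonoidHom.map_closure, map_le_map_iff_of_injective hφ]
  have a5 : (∀ x ∈ Sm k (R.map φ), ∀ y ∈ Sm k (R.map φ), cs x (R.map φ) = cs y (R.map φ) ∨
      Commute x y) ↔ ∀ x ∈ Sm k R, ∀ y ∈ Sm k R, cs x R = cs y R ∨ Commute x y := by
    simp only [sm_map hφ, Set.forall_mem_image, (cs_map hφ).2, (Set.image_injective.2 hφ).eq_iff,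
      Commute, SemiconjBy, ← map_mul, hφ.eq_iff]
  exact ⟨fun h => ⟨a0.1 h.1, a3.1 h.2, a4.1 h.3, a5.1 h.4⟩,
    fun h => ⟨a0.2 h.1, a3.2 h.2, a4.2 h.3, a5.2 h.4⟩⟩

theorem good_map : Good k (N.map φ) (P.map φ) (Q.map φ) ↔ Good k N P Q := by
  have p : ∀ {p : ℕ} {P : Subgroup G}, IsPGroup p (P.map φ) → IsPGroup p P := fun h =>
    h.of_equiv (equivMapOfInjective _ _ hφ).symm
  constructor
  · rintro ⟨a, b, c, d, e, f⟩
    rw [← map_commutator] at b e f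
    rw [← Subgroup.map_sup] at a
    rw [ce_map hφ] at f
    exact ⟨map_injective hφ a, (map_le_map_iff_of_injective hφ).1 b, p c, p d, (blk_map hφ).1 e,
      (le_map hφ).1 f⟩
  · rintro ⟨a, b, c, d, e, f⟩
    refine ⟨by rw [← Subgroup.map_sup, a], ?_, c.map φ, d.map φ, ?_, ?_⟩ <;> rw [← map_commutator]
    exacts [map_mono b, (blk_map hφ).2 e, ce_map hφ ▸ (le_map hφ).2 f]

end

/-- the classes -/
def X (k : ℕ) (G : Type) [Group G] : Prop := ∃ P Q : Subgroup G, Good k ⊤ P Q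

theorem X_iff : X k N ↔ ∃ P Q, Good k N P Q := by
  constructor
  · rintro ⟨P, Q, h⟩
    exact ⟨_, _, by simpa [← MonoidHom.range_eq_map] using (good_map N.subtype_injective).2 h⟩
  · rintro ⟨P, Q, h⟩
    refine ⟨P.subgroupOf N, Q.subgroupOf N, (good_map N.subtype_injective).1 ?_⟩
    rwa [map_subgroupOf_eq_of_le (h.sup ▸ le_sup_left), map_subgroupOf_eq_of_le
      (h.sup ▸ le_sup_right), ← MonoidHom.range_eq_map, range_subtype]

theorem Good.dec (h : Good k N P Q) (hx : x ∈ N) : ∃ y ∈ P, ∃ q ∈ Q, y * q = x := by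
  rw [← h.sup, ← SetLike.mem_coe, coe_mul_of_right_le_normalizer_left _ _
    (le_normalizer_iff_commutator_le_left.2 h.nor)] at hx
  exact hx

theorem tr (hP : IsPGroup 3 P) (hQ : IsPGroup 2 Q) (h : x ∈ P) (h' : x ∈ Q) : x = 1 := by
  obtain ⟨n, hn⟩ := hQ ⟨x, h'⟩
  exact triv hP h (congrArg Subtype.val hn)

theorem Good.max (h : Good k N P Q) {U : Subgroup G} (hU : U ≤ N) (h3 : IsPGroup 3 U) : U ≤ P :=
  fun x hx => by
    obtain ⟨y, hy, q, hq, rfl⟩ := h.dec (hU hx)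
    have := tr (h3.to_sup_of_normal_right' h.p3 (hU.trans (h.sup ▸ sup_le le_normalizer
      (le_normalizer_iff_commutator_le_left.2 h.nor)))) h.p2
      ((mul_mem_cancel_left (mem_sup_right hy)).1 (mem_sup_left hx)) hq
    rwa [this, mul_one]

theorem Good.normal [N.Normal] (h : Good k N P Q) : P.Normal :=
  ⟨fun x hx g => h.max ((map_mono (h.sup ▸ le_sup_left)).trans (Normal.map_conj_eq N g).le)
    (h.p3.map _) ⟨x, hx, rfl⟩⟩

variable [Finite G]

theorem Blk.dec (h : Blk k R) (h3 : IsPGroup 3 R) (h2 : IsPGroup 2 Q) (hn : Q ≤ normalizer R)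
    (hc : Ce R ≤ centralizer Q) : (∀ r ∈ R, ∃ u ∈ ⁅R, Q⁆, ∃ w ∈ R ⊓ centralizer Q, r = u * w) ∧
      ∀ u ∈ ⁅R, Q⁆, ∀ w ∈ R ⊓ centralizer Q, Commute u w := by
  refine ⟨fun r hr => ?_, fun u hu w hw => ?_⟩
  · obtain ⟨c, hc, b, b1, b2, e⟩ := split h3 h2 hn hr
    exact ⟨c, hc, b, ⟨b1, b2⟩, e⟩
  · have := h.f2 hn hw.1 hw.2 hu
    rw [commutator_eq_bot_iff_le_centralizer.2 hc] at this
    exact (commutatorElement_eq_one_iff_commute.1 this).symm

theorem X.sub (hk : 1 ≤ k) [hN : N.Normal] (h : X k G) : X k N := by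
  obtain ⟨P, Q, h⟩ := h
  have := h.normal
  have n : Q ⊓ N ≤ normalizer ((⁅P, Q⁆ : Subgroup G) : Set G) :=
    inf_le_left.trans (normalizer_commutator_ge_right P Q)
  have q := h.p2.to_inf_left (K := N)
  obtain ⟨d1, d2⟩ := h.blk.dec (h.p3.to_le h.nor) q n (h.c2.trans (centralizer_le inf_le_left))
  have e : ⁅P ⊓ N, Q ⊓ N⁆ = ⁅⁅P, Q⁆, Q ⊓ N⁆ := le_antisymm
    ((idem h.p3.to_inf_left q le_normalizer_of_normal).trans
      (commutator_mono (commutator_mono inf_le_left inf_le_left) le_rfl))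
    ((idem (h.p3.to_le h.nor) q n).trans (commutator_mono (le_inf
      ((commutator_mono h.nor le_rfl).trans (commutator_le_left _ _))
      ((commutator_mono le_rfl inf_le_right).trans (commutator_le_right _ _))) le_rfl))
  have l := le_normalizer_iff_commutator_le_left.1 n
  refine X_iff.2 ⟨P ⊓ N, Q ⊓ N, le_antisymm (sup_le inf_le_right inf_le_right) fun x hx => ?_,
    commutator_le_left _ _, h.p3.to_inf_left, q, e ▸ h.blk.summand l d1 d2 hk, ?_⟩
  · obtain ⟨y, hy, q, hq, rfl⟩ := h.dec (mem_top x)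
    have : y ∈ N := (QuotientGroup.eq_one_iff y).1 (tr (h.p3.map (QuotientGroup.mk' N))
      (h.p2.map (QuotientGroup.mk' N)) ⟨y, hy, rfl⟩ ⟨q⁻¹, inv_mem hq,
        QuotientGroup.eq.2 (by simpa using hN.mem_comm hx)⟩)
    exact mul_mem (mem_sup_left ⟨hy, this⟩) (mem_sup_right ⟨hq, (mul_mem_cancel_left this).1 hx⟩)
  · rw [e]
    exact fun z hz => centralizer_le inf_le_left (h.c2 ⟨l hz.1, ce_eq d1 d2 hz.1 hz.2⟩)

end Pool.Agent.H.MP_fedac3_al
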