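import Pool.Agent.H.MP_fedac3_al.E

set_option maxHeartbeats 400000

namespace Pool.Agent.H.MP_fedac3_al

open Subgroup Pool.Agent.Lib.Fitting
open scoped commutatorElement

variable {G : Type} [Group G] [Finite G] {k : ℕ}

theorem comm {R1 R2 Q1 Q2 : Subgroup G} (h1 : Pair k R1 Q1) (h2 : Pair k R2 Q2)
    (c12 : Ce R1 ≤ centralizer Q2) (c21 : Ce R2 ≤ centralizer Q1) (a12 : ⁅R1, Q2⁆ ≤ R2) :
    ∀ u ∈ R1, ∀ w ∈ R2 ⊓ centralizer Q1, Commute u w := by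
  have := h1.nor
  have := h2.nor
  have a : ∀ {R1 R2 Q1 Q2 : Subgroup G}, Pair k R1 Q1 → Pair k R2 Q2 → Ce R1 ≤ centralizer Q2 →
      Ce R2 ≤ centralizer Q1 → ∀ b ∈ R1 ⊓ centralizer Q2, ∀ x ∈ R1, x ∈ R2 → Commute b x :=
    fun h1 h2 c12 c21 b hb x x1 x2 => by
      obtain ⟨e, -, -, f, f1, f2, rfl, h⟩ := spl h1 h2 x1 x2
      have := h b hb.1 hb.2
      rw [commutator_eq_bot_iff_le_centralizer.2 c12] at this
      exact (commutatorElement_eq_one_iff_commute.1 this).mul_right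
        ((h1.fixc f1 (c21 f2)).2 b hb.1)
  have b : ⁅R2 ⊓ centralizer Q1, R1⁆ ≤ Ce R1 := commutator_le.2 fun w hw r hr => by
    refine ⟨cr w hr, fun y hy => ?_⟩
    obtain ⟨u, hu, v, hv, rfl⟩ := (h1.blk.dec h1.p3 h2.p2 le_normalizer_of_normal c12).1 y hy
    refine Commute.mul_left ?_ (a h1 h2 c12 c21 v hv _ (cr w hr) (cl hw.1 r))
    have : w ∈ centralizer (R2 ⊓ R1 : Subgroup G) := fun x hx =>
      (a h2 h1 c21 c12 w hw x hx.1 hx.2).symm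
    exact cl (R := centralizer (R2 ⊓ R1 : Subgroup G)) this r u
      (mem_inf.2 ⟨a12 hu, commutator_le_left _ _ hu⟩)
  have c := commutator_commutator_eq_bot_of_rotate (H₁ := R1) (H₂ := Q1)
    (H₃ := R2 ⊓ centralizer Q1) (by
      rw [commutator_comm Q1, commutator_eq_bot_iff_le_centralizer.2 inf_le_right,
        commutator_bot_left]) (commutator_eq_bot_iff_le_centralizer.2 (b.trans h1.c2))
  exact fun u hu w hw => (commutator_eq_bot_iff_le_centralizer.1 c (h1.gen hu) w hw).symm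

theorem one {N P P1 Q Q1 : Subgroup G} [N.Normal] [P.Normal] (h : Good k N P1 Q1) (hP : P1 ≤ P)
    (hQ : Q1 ≤ Q) (p3 : IsPGroup 3 P) (p2 : IsPGroup 2 Q) (hG : P ⊔ Q = ⊤) :
    Pair k ⁅P, Q1⁆ Q1 ∧ (⁅P, Q1⁆ ⊔ Q1).Normal := by
  have hN : Q1 ≤ N := h.sup ▸ le_sup_right
  have e : ⁅P1, Q1⁆ = ⁅P, Q1⁆ := le_antisymm (commutator_mono hP le_rfl)
    ((idem p3 h.p2 le_normalizer_of_normal).trans (commutator_mono (h.max
      ((commutator_mono le_rfl hN).trans (commutator_le_right _ _))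
      (p3.to_le (commutator_le_left _ _))) le_rfl))
  have q : ∀ g ∈ Q, ∀ x ∈ Q1, g * x * g⁻¹ ∈ Q1 := fun g hg x hx => by
    obtain ⟨y, hy, q, hq, e⟩ := h.dec (Normal.conj_mem ‹_› x (hN hx) g)
    have := tr p3 p2 (hP hy) ((mul_mem_cancel_right (hQ hq)).1
      (e ▸ mul_mem (mul_mem hg (hQ hx)) (inv_mem hg)))
    rwa [← e, this, one_mul]
  have d : ∀ g, ∃ x ∈ P, ∃ q ∈ Q, x * q = g := fun g =>
    mem_sup_of_normal_left.1 (hG ▸ mem_top g)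
  have n : ⁅P, Q1⁆.Normal := ⟨fun r hr g => by
    obtain ⟨x, hx, y, hy, rfl⟩ := d g
    have : ⁅P, Q1⁆ ≤ ⁅P, Q1⁆.comap (MulAut.conj y).toMonoidHom := commutator_le.2 fun a ha b hb =>
      show y * ⁅a, b⁆ * y⁻¹ ∈ _ from conjugate_commutatorElement a b y ▸ commutator_mem_commutator
        (Normal.conj_mem ‹_› a ha y) (q y hy b hb)
    simpa [mul_assoc] using (mem_normalizer_iff.1 (normalizer_commutator_ge_left P Q1 hx) _).1
      (this hr)⟩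
  refine ⟨⟨n, p3.to_le (commutator_le_left _ _), h.p2, e ▸ h.blk, e ▸ h.c2,
    idem p3 h.p2 le_normalizer_of_normal⟩, ⟨fun r hr g => ?_⟩⟩
  refine (sup_le (fun r hr => mem_sup_left (n.conj_mem r hr g)) fun r hr => ?_ :
    _ ≤ (⁅P, Q1⁆ ⊔ Q1).comap (MulAut.conj g).toMonoidHom) hr
  obtain ⟨x, hx, y, hy, rfl⟩ := d g
  have := mul_mem (mem_sup_left (commutator_mem_commutator hx (q y hy r hr)))
    (mem_sup_right (S := ⁅P, Q1⁆) (q y hy r hr))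
  simpa [commutatorElement_def, mul_assoc] using this

theorem X.sup (hk : 1 ≤ k) {N1 N2 : Subgroup G} [N1.Normal] [N2.Normal] (hG : N1 ⊔ N2 = ⊤)
    (h1 : X k N1) (h2 : X k N2) : X k G := by
  obtain ⟨P1, Q1, h1⟩ := X_iff.1 h1
  obtain ⟨P2, Q2, h2⟩ := X_iff.1 h2
  obtain ⟨S, hS⟩ := h1.p2.exists_le_sylow
  obtain ⟨T, hT⟩ := h2.p2.exists_le_sylow
  obtain ⟨g, rfl⟩ := MulAction.exists_smul_eq G T S
  have := h1.normal
  have := h2.normal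
  replace h2 := (good_map (φ := (MulAut.conj g : G →* G)) (MulAut.conj g).injective).2 h2
  rw [Normal.map_conj_eq, Normal.map_conj_eq] at h2
  have p2 : IsPGroup 2 ↥(Q1 ⊔ Q2.map (MulAut.conj g)) :=
    (g • T).2.to_le (sup_le hS (map_mono hT))
  generalize Q2.map (MulAut.conj g : G →* G) = Q2 at h2 p2
  have p3 := h1.p3.to_sup_of_normal_right h2.p3
  have e : P1 ⊔ P2 ⊔ (Q1 ⊔ Q2) = ⊤ := by rw [sup_sup_sup_comm, h1.sup, h2.sup, hG]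
  obtain ⟨a1, m1⟩ := one h1 le_sup_left le_sup_left p3 p2 e
  obtain ⟨a2, m2⟩ := one h2 le_sup_right le_sup_right p3 p2 e
  have : (P1 ⊔ P2).Normal := inferInstance
  generalize P1 ⊔ P2 = P at *
  have n1 := a1.nor
  have n2 := a2.nor
  have a12 : ⁅⁅P, Q1⁆, Q2⁆ ≤ ⁅P, Q2⁆ := commutator_mono (commutator_le_left _ _) le_rfl
  have a21 : ⁅⁅P, Q2⁆, Q1⁆ ≤ ⁅P, Q1⁆ := commutator_mono (commutator_le_left _ _) le_rfl
  have c12 := cent a1 a2 a12 a21 m2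
  have c21 := cent a2 a1 a21 a12 m1
  have hc := comm a1 a2 c12 c21 a12
  obtain ⟨d1, d2⟩ := a2.blk.dec a2.p3 a1.p2 le_normalizer_of_normal c21
  have r : ⁅P, Q1 ⊔ Q2⁆ ≤ ⁅P, Q1⁆ ⊔ ⁅P, Q2⁆ := by
    have : ∀ Q, ⁅P, Q⁆ ≤ ⁅P, Q1⁆ ⊔ ⁅P, Q2⁆ ↔ Q.map (QuotientGroup.mk' (⁅P, Q1⁆ ⊔ ⁅P, Q2⁆)) ≤
        centralizer (P.map (QuotientGroup.mk' (⁅P, Q1⁆ ⊔ ⁅P, Q2⁆))) := fun Q => by
      rw [← commutator_eq_bot_iff_le_centralizer, ← map_commutator, Subgroup.map_eq_bot_iff,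
        QuotientGroup.ker_mk', commutator_comm Q]
    rw [this, Subgroup.map_sup]
    exact sup_le ((this _).1 le_sup_left) ((this _).1 le_sup_right)
  have hR : ∀ r ∈ ⁅P, Q1 ⊔ Q2⁆, ∃ u ∈ ⁅P, Q1⁆, ∃ w ∈ ⁅P, Q2⁆ ⊓ centralizer Q1, r = u * w :=
    fun x hx => by
      obtain ⟨y, hy, z, hz, rfl⟩ := mem_sup_of_normal_left.1 (r hx)
      obtain ⟨u, hu, w, hw, rfl⟩ := d1 z hz
      exact ⟨y * u, mul_mem hy (a21 hu), w, hw, (mul_assoc _ _ _).symm⟩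
  have l1 : ⁅P, Q1⁆ ≤ ⁅P, Q1 ⊔ Q2⁆ := commutator_mono le_rfl le_sup_left
  have l2 : ⁅P, Q2⁆ ≤ ⁅P, Q1 ⊔ Q2⁆ := commutator_mono le_rfl le_sup_right
  have d3 : ∀ r ∈ ⁅P, Q2⁆, ∃ w ∈ ⁅P, Q2⁆ ⊓ centralizer Q1, ∃ u ∈ ⁅⁅P, Q2⁆, Q1⁆, r = w * u :=
    fun r hr => by
      obtain ⟨u, hu, w, hw, rfl⟩ := d1 r hr
      exact ⟨w, hw, u, hu, d2 u hu w hw⟩
  have d4 := fun w hw u hu => (d2 u hu w hw).symm
  refine ⟨P, Q1 ⊔ Q2, e, commutator_le_left _ _, p3, p2, Blk.sum l1 hR hc (inf_le_left.trans l2)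
    a1.blk (a2.blk.summand inf_le_left d3 d4 hk), fun z hz => ?_⟩
  obtain ⟨u, hu, w, hw, rfl⟩ := hR z hz.1
  have e1 : u ∈ Ce ⁅P, Q1⁆ := ⟨hu, fun y hy => mul_right_cancel (b := w) (by
    rw [mul_assoc, hz.2 y (l1 hy), mul_assoc, mul_assoc, (hc y hy w hw).eq])⟩
  have e2 : w ∈ Ce ⁅P, Q2⁆ := ⟨hw.1, ce_eq d3 d4 hw fun y hy => mul_left_cancel (a := u) (by
    rw [← mul_assoc, (hc u hu y hy).eq, mul_assoc, hz.2 y (l2 hy.1), mul_assoc])⟩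
  exact le_centralizer_iff.1 (sup_le (le_centralizer_iff.1 (zpowers_le.2 (mul_mem (a1.c2 e1)
    (c21 e2)))) (le_centralizer_iff.1 (zpowers_le.2 (mul_mem (c12 e1) (a2.c2 e2)))))
    (mem_zpowers _)

theorem fit_X (hk : 1 ≤ k) : Fit (X k) := by
  have b : ∀ (G K : Type) [Group G] [Group K], Nonempty (G ≃* K) → X k G → X k K :=
    fun G K _ _ ⟨e⟩ ⟨P, Q, h⟩ => ⟨_, _, map_equiv_top e ▸
      (good_map (φ := (e : G →* K)) e.injective).2 h⟩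
  refine ⟨b, fun G _ _ N _ h => h.sub hk, fun G _ _ N K _ _ h1 h2 => ?_⟩
  have a : ∀ {U V : Subgroup G}, U ≤ V → X k U → X k (U.subgroupOf V) := fun h =>
    b _ _ ⟨(subgroupOfEquivOfLe h).symm⟩
  exact X.sup hk (by rw [← subgroupOf_sup le_sup_left le_sup_right, subgroupOf_self])
    (a le_sup_left h1) (a le_sup_right h2)

end Pool.Agent.H.MP_fedac3_al
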