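import Pool.Agent.H.MP_fedac3_al.F

set_option maxHeartbeats 400000

namespace Pool.Agent.H.MP_fedac3_al

open Subgroup Pool.Agent.Lib.Fitting
open scoped commutatorElement

/-- generalised dihedral groups -/
@[ext] structure D (V : Type) where
  v : V
  e : ℤˣ

variable {V W : Type} [AddCommGroup V] [AddCommGroup W]

instance : Mul (D V) := ⟨fun a b => ⟨a.v + a.e • b.v, a.e * b.e⟩⟩
instance : One (D V) := ⟨⟨0, 1⟩⟩
instance : Inv (D V) := ⟨fun a => ⟨-(a.e • a.v), a.e⟩⟩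
@[simp] theorem D.mul_def (a b : D V) : a * b = ⟨a.v + a.e • b.v, a.e * b.e⟩ := rfl
@[simp] theorem D.one_def : (1 : D V) = ⟨0, 1⟩ := rfl
@[simp] theorem D.inv_def (a : D V) : a⁻¹ = ⟨-(a.e • a.v), a.e⟩ := rfl

instance : Group (D V) := Group.ofLeftAxioms (fun a b c => by simp [mul_smul, add_assoc, mul_assoc])
  (fun a => by simp) fun a => by simp

instance [Finite V] : Finite (D V) :=
  Finite.of_injective (fun a : D V => (a.v, a.e)) fun _ _ h =>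
    D.ext (congrArg Prod.fst h) (congrArg Prod.snd h)

variable {C : (G : Type) → [Group G] → Prop} (hC : Fit C)
include hC

theorem rg {G K : Type} [Group G] [Group K] [Finite K] (φ : G →* K) (hφ : Function.Injective φ) :
    C φ.range ↔ C G :=
  ⟨hC.1 _ _ ⟨(MonoidHom.ofInjective hφ).symm⟩, hC.1 _ _ ⟨MonoidHom.ofInjective hφ⟩⟩

theorem D_equiv (e : V ≃+ W) (h : C (D V)) : C (D W) :=
  hC.1 _ _ ⟨⟨⟨fun a => ⟨e a.v, a.e⟩, fun a => ⟨e.symm a.v, a.e⟩, fun a => by simp,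
    fun a => by simp⟩, fun a b => by simp [Units.smul_def]⟩⟩ h

theorem two {A B G : Type} [Group A] [Group B] [Group G] [Finite G] (φ : A →* G) (ψ : B →* G)
    (hφ : Function.Injective φ) (hψ : Function.Injective ψ) (n : ∀ g a, ∃ b, φ b = g * φ a * g⁻¹)
    (n' : ∀ g a, ∃ b, ψ b = g * ψ a * g⁻¹) (e : ∀ g, ∃ a b, φ a * ψ b = g) (h : C A) (h' : C B) :
    C G := by
  have := hC.2.2 _ φ.range ψ.range ⟨by rintro _ ⟨a, rfl⟩ g; exact n g a⟩
    ⟨by rintro _ ⟨a, rfl⟩ g; exact n' g a⟩ ((rg hC _ hφ).2 h) ((rg hC _ hψ).2 h')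
  rwa [(eq_top_iff' (φ.range ⊔ ψ.range)).2 fun g => by
    obtain ⟨a, b, rfl⟩ := e g
    exact mul_mem (mem_sup_left ⟨a, rfl⟩) (mem_sup_right ⟨b, rfl⟩), hC.top] at this

theorem D_prod [Finite V] [Finite W] (h : C (D V)) (h' : C (D W)) : C (D (V × W)) := by
  have a : C (D V × D W) := two hC (MonoidHom.inl _ _) (MonoidHom.inr _ _)
    (fun _ _ e => congrArg Prod.fst e) (fun _ _ e => congrArg Prod.snd e)
    (fun g a => ⟨g.1 * a * g.1⁻¹, Prod.ext rfl (by simp [-D.mul_def, -D.inv_def, -D.one_def])⟩)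
    (fun g a => ⟨g.2 * a * g.2⁻¹, Prod.ext (by simp [-D.mul_def, -D.inv_def, -D.one_def]) rfl⟩)
    (fun g => ⟨g.1, g.2, Prod.ext (mul_one _) (one_mul _)⟩) h h'
  let φ : D (V × W) →* D V × D W :=
    MonoidHom.mk' (fun a => (⟨a.v.1, a.e⟩, ⟨a.v.2, a.e⟩)) fun a b => by simp
  refine (rg hC φ fun a b e => ?_).1 (hC.2.1 _ _ ⟨?_⟩ a)
  · simp only [φ, MonoidHom.mk'_apply, Prod.mk.injEq, D.mk.injEq] at e
    exact D.ext (Prod.ext e.1.1 e.2.1) e.1.2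
  · rintro _ ⟨a, rfl⟩ g
    exact ⟨⟨((g * φ a * g⁻¹).1.v, (g * φ a * g⁻¹).2.v), a.e⟩, by
      ext <;> simp [φ, mul_comm g.1.e, mul_comm g.2.e, mul_assoc]⟩

theorem D_all (h : C (D (ZMod 3))) [Finite V] [Nontrivial V] [Module (ZMod 3) V] : C (D V) := by
  have a : ∀ m, C (D (Fin (m + 1) → ZMod 3)) := fun m => by
    induction m with
    | zero => exact D_equiv hC (AddEquiv.funUnique (Fin 1) _).symm h
    | succ m ih => exact D_equiv hC (Fin.consLinearEquiv ℤ fun _ => ZMod 3).toAddEquiv (D_prod hC h ih)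
  obtain ⟨m, hm⟩ := Nat.exists_eq_succ_of_ne_zero (Module.finrank_pos (R := ZMod 3) (M := V)).ne'
  exact D_equiv hC (LinearEquiv.ofFinrankEq (R := ZMod 3) _ _ (by simp [hm])).toAddEquiv (a m)

omit hC

/-- Heisenberg groups extended by two signs -/
@[ext] structure Γ (K : Type) where
  x : K
  y : K
  z : K
  e : ℤˣ
  f : ℤˣ

variable {K : Type} [Field K]

instance : Mul (Γ K) := ⟨fun a b => ⟨a.x + a.e • b.x, a.y + a.f • b.y,
  a.z + a.e • a.f • b.z + a.x * a.f • b.y, a.e * b.e, a.f * b.f⟩⟩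
instance : One (Γ K) := ⟨⟨0, 0, 0, 1, 1⟩⟩
instance : Inv (Γ K) :=
  ⟨fun a => ⟨-(a.e • a.x), -(a.f • a.y), a.e • a.f • (a.x * a.y - a.z), a.e, a.f⟩⟩
@[simp] theorem Γ.mul_def (a b : Γ K) : a * b = ⟨a.x + a.e • b.x, a.y + a.f • b.y,
  a.z + a.e • a.f • b.z + a.x * a.f • b.y, a.e * b.e, a.f * b.f⟩ := rfl
@[simp] theorem Γ.one_def : (1 : Γ K) = ⟨0, 0, 0, 1, 1⟩ := rfl
@[simp] theorem Γ.inv_def (a : Γ K) :
    a⁻¹ = ⟨-(a.e • a.x), -(a.f • a.y), a.e • a.f • (a.x * a.y - a.z), a.e, a.f⟩ := rfl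

instance : Group (Γ K) := Group.ofLeftAxioms (fun a b c => by
    ext <;> simp [Units.smul_def] <;> ring) (fun a => by simp) fun a => by
  ext <;> simp [Units.smul_def]
  ring

instance [Finite K] : Finite (Γ K) :=
  Finite.of_injective (fun a : Γ K => (a.x, a.y, a.z, a.e, a.f)) fun _ _ h => by
    simp only [Prod.mk.injEq] at h
    exact Γ.ext h.1 h.2.1 h.2.2.1 h.2.2.2.1 h.2.2.2.2

theorem Γ_mem [Finite K] (hC : Fit C) (h : C (D (K × K))) : C (Γ K) := by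
  refine two hC (MonoidHom.mk' (fun a : D (K × K) => (⟨a.v.1, 0, a.v.2, a.e, 1⟩ : Γ K))
    fun a b => by simp) (MonoidHom.mk' (fun a : D (K × K) => (⟨0, a.v.1, a.v.2, 1, a.e⟩ : Γ K))
    fun a b => by simp) (fun a b e => ?_) (fun a b e => ?_) (fun g a => ?_) (fun g a => ?_)
    (fun g => ⟨⟨(g.x, g.z - g.x * g.y), g.e⟩, ⟨(g.y, 0), g.f⟩, by simp⟩) h h
  · simp only [MonoidHom.mk'_apply, Γ.mk.injEq] at e
    exact D.ext (Prod.ext e.1 e.2.2.1) e.2.2.2.1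
  · simp only [MonoidHom.mk'_apply, Γ.mk.injEq] at e
    exact D.ext (Prod.ext e.2.1 e.2.2.1) e.2.2.2.2
  · generalize hw : g * _ * g⁻¹ = w
    exact ⟨⟨(w.x, w.z), w.e⟩, by subst hw; simp [smul_smul]⟩
  · generalize hw : g * _ * g⁻¹ = w
    exact ⟨⟨(w.y, w.z), w.f⟩, by subst hw; simp [smul_smul]⟩

end Pool.Agent.H.MP_fedac3_al
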