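import Pool.Agent.H.MP_fedac3_al.G

set_option maxHeartbeats 400000

namespace Pool.Agent.H.MP_fedac3_al

open Subgroup Pool.Agent.Lib.Fitting
open scoped commutatorElement

variable (K : Type) [Field K]

/-- the diagonal subgroup -/
def Δ : Subgroup (Γ K) where
  carrier := {g | g.e = g.f}
  one_mem' := rfl
  mul_mem' := fun {a b} (ha : a.e = a.f) (hb : b.e = b.f) => show a.e * b.e = a.f * b.f by
    rw [ha, hb]
  inv_mem' := id

/-- the Heisenberg group -/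
def He : Subgroup (Γ K) where
  carrier := {g | g.e = 1 ∧ g.f = 1}
  one_mem' := ⟨rfl, rfl⟩
  mul_mem' := fun {a b} ha hb => by simp [ha.1, ha.2, hb.1, hb.2]
  inv_mem' := id

/-- the complement -/
def Co : Subgroup (Γ K) where
  carrier := {g | g.x = 0 ∧ g.y = 0 ∧ g.z = 0 ∧ g.e = g.f}
  one_mem' := ⟨rfl, rfl, rfl, rfl⟩
  mul_mem' := fun {a b} ha hb => by simp [ha.1, ha.2, hb.1, hb.2]
  inv_mem' := fun {a} ha => by simp [ha.1, ha.2]

instance : (Δ K).Normal := ⟨fun a (ha : a.e = a.f) g => show g.e * a.e * g.e = g.f * a.f * g.f by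
  rw [mul_right_comm, mul_right_comm g.f, ha, Int.units_mul_self, Int.units_mul_self]⟩

instance : (He K).Normal := ⟨fun a ha g => ⟨by simp [ha.1], by simp [ha.2]⟩⟩

variable {K}

theorem cm {a b : Γ K} (ha : a ∈ He K) (hb : b ∈ He K) :
    ⁅a, b⁆ = ⟨0, 0, a.x * b.y - b.x * a.y, 1, 1⟩ := by
  simp [commutatorElement_def, ha.1, ha.2, hb.1, hb.2]
  ring

theorem zc {a : Γ K} (ha : a ∈ Δ K) (z : K) : Commute a ⟨0, 0, z, 1, 1⟩ := by
  have : a.e = a.f := ha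
  simp [Commute, SemiconjBy, this, smul_smul, add_comm]

theorem zcard : (Set.range fun z : K => (⟨0, 0, z, 1, 1⟩ : Γ K)).ncard = Nat.card K := by
  rw [Set.ncard_range_of_injective fun _ _ e => congrArg Γ.z e]

theorem cs_sub {R : Subgroup (Γ K)} (h : R ≤ He K) {a : Γ K} (ha : a ∈ R) :
    cs a R ⊆ Set.range fun z : K => (⟨0, 0, z, 1, 1⟩ : Γ K) := by
  rintro _ ⟨b, hb, rfl⟩
  exact ⟨_, (cm (h ha) (h hb)).symm⟩

theorem HΔ : He K ≤ Δ K := fun _ h => h.1.trans h.2.symm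

theorem cs_all {a : Γ K} (ha : a ∈ He K) : (a.x = 0 ∧ a.y = 0) ∨
    cs a (He K) = Set.range fun z : K => (⟨0, 0, z, 1, 1⟩ : Γ K) := by
  refine or_iff_not_imp_left.2 fun h => (cs_sub le_rfl ha).antisymm ?_
  rintro _ ⟨z, rfl⟩
  by_cases e : a.x = 0
  · refine ⟨⟨-z / a.y, 0, 0, 1, 1⟩, ⟨rfl, rfl⟩, (cm ha ⟨rfl, rfl⟩).trans ?_⟩
    have : a.y ≠ 0 := fun e' => h ⟨e, e'⟩
    simp [this]
  · refine ⟨⟨0, z / a.x, 0, 1, 1⟩, ⟨rfl, rfl⟩, (cm ha ⟨rfl, rfl⟩).trans ?_⟩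
    simp [mul_div_cancel₀, e]

theorem zc' {a b : Γ K} (ha : a ∈ He K) (h : a.x = 0 ∧ a.y = 0) (hb : b ∈ Δ K) : Commute b a := by
  convert zc hb a.z using 1
  exact Γ.ext h.1 h.2 rfl ha.1 ha.2

variable [Finite K] [CharP K 3]

theorem good : Good (Nat.card K) (Δ K) (He K) (Co K) := by
  have h3 : (3 : K) = 0 := CharP.cast_eq_zero K 3
  have hC : Co K ≤ Δ K := fun _ h => h.2.2.2
  have e : ⁅He K, Co K⁆ = He K := (commutator_le_left _ _).antisymm fun g hg => by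
    have a : ∀ x y : K, x * y = 0 → (⟨x, y, 0, 1, 1⟩ : Γ K) ∈ ⁅He K, Co K⁆ := fun x y h => by
      convert commutator_mem_commutator (H₁ := He K) (H₂ := Co K) (g₁ := ⟨-x, -y, 0, 1, 1⟩)
        (g₂ := ⟨0, 0, 0, -1, -1⟩) ⟨rfl, rfl⟩ ⟨rfl, rfl, rfl, rfl⟩ using 1
      simp [commutatorElement_def, h]
      exact ⟨by linear_combination x * h3, by linear_combination y * h3⟩
    convert mul_mem (mul_mem (commutator_le_self _ (commutator_mem_commutator (a g.z 0 (by simp))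
      (a 0 1 (by simp)))) (a 0 g.y (by simp))) (a g.x 0 (by simp)) using 1
    rw [cm ⟨rfl, rfl⟩ ⟨rfl, rfl⟩]
    ext <;> simp [hg.1, hg.2]
  refine ⟨le_antisymm (sup_le HΔ hC) fun g hg => ?_, commutator_le_left _ _, fun g => ⟨1, ?_⟩,
    fun g => ⟨1, ?_⟩, e.symm ▸ ⟨commutator_le.2 fun a ha b hb c hc => ?_, fun a ha => ?_,
    fun a ha => subset_closure ⟨ha, ?_⟩, fun a ha b hb => ?_⟩, e.symm ▸ fun a ha b hb => ?_⟩
  · convert mul_mem (mem_sup_left (S := He K) (T := Co K) (x := ⟨g.x, g.y, g.z, 1, 1⟩) ⟨rfl, rfl⟩)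
      (mem_sup_right (S := He K) (T := Co K) (x := ⟨0, 0, 0, g.e, g.f⟩) ⟨rfl, rfl, rfl, hg⟩) using 1
    simp
  · ext <;> simp [pow_succ, g.2.1, g.2.2]
    exacts [by linear_combination g.1.x * h3, by linear_combination g.1.y * h3,
      by linear_combination (g.1.z + g.1.x * g.1.y) * h3]
  · ext <;> simp [pow_succ, g.2.1, g.2.2]
  · rw [cm ha hb]
    exact zc (HΔ hc) _
  · exact (cs_all ha).imp (fun h b hb => zc' ha h (HΔ hb)) fun h => by rw [h, zcard]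
  · exact (Set.ncard_le_ncard (cs_sub le_rfl ha)).trans zcard.le
  · rcases cs_all ha.1 with h | h
    · exact .inr (zc' ha.1 h (HΔ hb.1)).symm
    · exact (cs_all hb.1).symm.imp (fun h' => h.trans h'.symm) fun h' => zc' hb.1 h' (HΔ ha.1)
  · refine zc' ha.1 ((cs_all ha.1).resolve_right fun h => ?_) (hC hb)
    obtain ⟨c, hc, e⟩ := h.ge ⟨1, rfl⟩
    exact zero_ne_one (congrArg Γ.z
      ((commutatorElement_eq_one_iff_mul_comm.2 (ha.2 c hc).symm).symm.trans e))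

theorem bad {k : ℕ} (h : X k (Δ K)) : k ≤ Nat.card K := by
  obtain ⟨P, Q, h⟩ := X_iff.1 h
  obtain rfl : P = He K := (good.max (h.sup ▸ le_sup_left) h.p3).antisymm (h.max HΔ good.p3)
  by_contra n
  have a : ⁅He K, Q⁆ ≤ Ce ⁅He K, Q⁆ := fun x hx => ⟨hx, (h.blk.c3 x hx).resolve_right fun e =>
    n (e.trans ((Set.ncard_le_ncard (cs_sub h.nor hx)).trans zcard.le))⟩
  have b := idem h.p3 h.p2 le_normalizer_of_normal
  rw [commutator_eq_bot_iff_le_centralizer.2 (a.trans h.c2), le_bot_iff,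
    commutator_eq_bot_iff_le_centralizer] at b
  obtain ⟨y, hy, q, hq, e⟩ := h.dec (x := ⟨0, 0, 0, -1, -1⟩) rfl
  have c := congrArg Γ.x (b (x := ⟨1, 0, 0, 1, 1⟩) ⟨rfl, rfl⟩ q hq)
  have d := congrArg Γ.e e
  simp only [Γ.mul_def, hy.1, one_mul] at c d
  simp only [d, Units.neg_smul, one_smul] at c
  exact one_ne_zero (α := K) (by linear_combination c + CharP.cast_eq_zero K 3)

/-- Fitting classes of finite groups -/
def Fi (F : (H : Type) → [Group H] → Prop) : Prop :=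
  (∀ (H : Type) [Group H], F H → Finite H) ∧
    (∀ (H K : Type) [Group H] [Group K], Nonempty (H ≃* K) → F H → F K) ∧
    (∀ (H : Type) [Group H] (N : Subgroup H), N.Normal → F H → F ↥N) ∧
    (∀ (H : Type) [Group H] (N M : Subgroup H), N.Normal → M.Normal →
      F ↥N → F ↥M → F ↥(N ⊔ M))

theorem fin_sup {H : Type} [Group H] (N M : Subgroup H) [M.Normal] [Finite N] [Finite M] :
    Finite ↥(N ⊔ M) := by
  have : (↑(N ⊔ M) : Set H).Finite := by
    rw [mul_normal]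
    exact (Set.toFinite _).mul (Set.toFinite _)
  exact this

theorem sol : Group.IsSolvable (D (ZMod 3)) := by
  let π : D (ZMod 3) →* ℤˣ := MonoidHom.mk' D.e fun _ _ => rfl
  let ι : Multiplicative (ZMod 3) →* D (ZMod 3) :=
    MonoidHom.mk' (fun a => ⟨a.toAdd, 1⟩) fun a b => by simp
  exact Group.isSolvable_of_ker_le_range ι π fun a (ha : a.e = 1) =>
    ⟨.ofAdd a.v, D.ext rfl ha.symm⟩

theorem main : {F : (H : Type) → [Group H] → Prop | Fi F ∧ ∀ Q, Fi Q → Q (D (ZMod 3)) →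
    ∀ (H : Type) [Group H], F H → Q H}.Infinite := by
  let F (n : ℕ) (H : Type) [Group H] : Prop :=
    Finite H ∧ X (3 ^ (n + 1)) H ∧ ∀ Q, Fi Q → Q (D (ZMod 3)) → Q H
  have key : ∀ {n m : ℕ}, n < m → F n ≠ F m := fun {n m} h e => by
    have c := GaloisField.card 3 (n + 1) n.succ_ne_zero
    have : F n (Δ (GaloisField 3 (n + 1))) := ⟨inferInstance, c ▸ X_iff.2 ⟨_, _, good⟩,
      fun Q q h => by
        have f : Fit Q := ⟨q.2.1, fun G _ _ => q.2.2.1 G, fun G _ _ => q.2.2.2 G⟩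
        exact q.2.2.1 _ _ inferInstance (Γ_mem f (D_all f h))⟩
    have := bad (e ▸ this).2.1
    rw [c, Nat.pow_le_pow_iff_right (by norm_num)] at this
    omega
  refine Set.infinite_of_injective_forall_mem (f := F) (fun n m e => (lt_trichotomy n m).elim
    (fun h => (key h e).elim) fun h => h.elim id fun h => (key h e.symm).elim) fun n => ?_
  have f := fit_X (Nat.one_le_pow (n + 1) 3 (by norm_num))
  refine ⟨⟨fun _ _ h => h.1, fun H K _ _ ⟨e⟩ h => ⟨have := h.1; .of_equiv _ e.toEquiv,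
    f.1 _ _ ⟨e⟩ h.2.1, fun Q q g => q.2.1 _ _ ⟨e⟩ (h.2.2 Q q g)⟩, fun H _ N hN h =>
    have := h.1; ⟨inferInstance, f.2.1 _ _ hN h.2.1, fun Q q g => q.2.2.1 _ _ hN (h.2.2 Q q g)⟩,
    fun H _ N M _ _ h h' => ?_⟩, fun Q q g H _ h => h.2.2 Q q g⟩
  have := h.1
  have := h'.1
  have := fin_sup N M
  exact ⟨this, X.sup (Nat.one_le_pow _ _ (by norm_num))
    (by rw [← subgroupOf_sup le_sup_left le_sup_right, subgroupOf_self])
    (f.1 _ _ ⟨(subgroupOfEquivOfLe le_sup_left).symm⟩ h.2.1)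
    (f.1 _ _ ⟨(subgroupOfEquivOfLe le_sup_right).symm⟩ h'.2.1),
    fun Q q g => q.2.2.2 _ _ _ ‹_› ‹_› (h.2.2 Q q g) (h'.2.2 Q q g)⟩

end Pool.Agent.H.MP_fedac3_al
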